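import Pool.Agent.H664.FH.VarB
import Pool.Graph.R_seed8.Helper386.D5V.Helper379_SFGal

/-!
Project QM (helper664): families of varieties over hypersurfaces, with entire coefficients.
-/

set_option autoImplicit false

namespace Pool.Agent.H664.QM

open MvPolynomial Filter Topology Metric Pool.Agent.W996.EC Pool.Agent.Q72.EG

/-- `V` is an irreducible variety of dimension `n` over a hypersurface, additively free, without
algebraic monomials: the hypotheses of the theorem `HypersurfaceFreeFibres` (all of them algebraic) -/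
def GoodV {n : ℕ} (V : Set (Fin n ⊕ Fin n → ℂ)) : Prop :=
  ∃ (I : Ideal (MvPolynomial (Fin n ⊕ Fin n) ℂ)) (P : MvPolynomial (Fin n) ℂ),
    IsVar I V ∧ HasDimV V n ∧ ProjEq V P ∧
    (∀ m : Fin n → ℤ, m ≠ 0 → ∀ c : ℂ, ∃ p ∈ V, (∑ j : Fin n, (m j : ℂ) * p (Sum.inl j)) ≠ c) ∧
    ∀ m : Fin n → ℤ, m ≠ 0 → ¬ MonAlg V P m

/-- JOB TRANSPORT. Field automorphisms of `ℂ` preserve `GoodV`.
Proof. `σ` acts on polynomials (`MvPolynomial.map σ`, an isomorphism of rings `MvPolynomial.mapEquiv`); `eval (σ ∘ p) (map σ f) = σ (eval p f)`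
(`MvPolynomial.eval₂_comp`, `map_eval`). Take `I' = I.map (map σ)` (or the comap for `σ⁻¹`), `P' = map σ P`. Vanishing on `V'` of `f` is vanishing on `V` of
`map σ.symm f`; `vars` of `map σ f` = `vars f` (`vars_map_of_injective`), irreducibility and divisibility are preserved by the ring isomorphism
(`MulEquiv.irreducible_iff`, `map_dvd_iff`). `σ (∏ p_l ^ m_l) = ∏ (σ p_l) ^ m_l`, `σ (m : ℂ) = m`. -/
def S_transport : Prop := ∀ (n : ℕ) (σ : ℂ ≃+* ℂ) (V V' : Set (Fin n ⊕ Fin n → ℂ)),
  (∀ p, p ∈ V ↔ (fun i => σ (p i)) ∈ V') → GoodV V → GoodV V'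

/-- the variety defined by the polynomials `∑_i f_{k i}(s) a_{k i}` -/
def Vs {n N K : ℕ} (f : Fin N → Fin K → ℂ → ℂ) (a : Fin N → Fin K → MvPolynomial (Fin n ⊕ Fin n) ℂ)
    (s : ℂ) : Set (Fin n ⊕ Fin n → ℂ) :=
  {p | (∀ k, ∑ i, f k i s * eval p (a k i) = 0) ∧ ∀ j : Fin n, p (Sum.inr j) ≠ 0}

/-- JOB GENFAM. The property `GoodV (Vs f a s)` holds for all `s` outside of a countable set, or only for the `s` in a countable set.
Proof. Let `T` be a countable subfield of `ℂ` which contains all the coefficients of the `a k i` (the closure of a countable set, `Subfield.closure`). For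
`q ∈ MvPolynomial (Fin N × Fin K) T` the function `s ↦ aeval (fun u => f u.1 u.2 s) q` is entire, so if it is not identically zero it has countably many zeros
(`_root_.W973.EC.zeros_countable`). Let `Z` be the union of these zero sets over the countably many `q` with a function which is not identically zero. For `s, t ∉ Z` the tuples `(f u s)_u` and
`(f u t)_u` satisfy the same polynomial equations over `T`, so by `SF.exists_algEquiv_of_same_type` there is `σ : ℂ ≃ₐ[T] ℂ` with `σ (f u s) = f u t` for all `u`. It fixes the coefficients of `a k i`, so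
`p ∈ Vs f a s ↔ σ ∘ p ∈ Vs f a t`, and `S_transport` applies. So `GoodV (Vs f a s) ↔ GoodV (Vs f a t)` for `s, t ∉ Z`. -/
def S_genfam : Prop := ∀ (n N K : ℕ) (f : Fin N → Fin K → ℂ → ℂ)
  (a : Fin N → Fin K → MvPolynomial (Fin n ⊕ Fin n) ℂ), (∀ k i, Differentiable ℂ (f k i)) →
  ¬ {s | GoodV (Vs f a s)}.Countable → {s | ¬ GoodV (Vs f a s)}.Countable

end Pool.Agent.H664.QM
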